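import Pool.Agent.Lib_MP_6f255c_dk.Init
import Pool.Agent.Lib_MP_6f255c_dk.ChromBridge

set_option autoImplicit false

namespace Pool.Agent.Results.MP_6f255c_co.SignOnInterval

open Polynomial Pool.Agent.DK

universe u

/-- `G` is alpha-1-tough: deleting a nonempty independent set `S` of vertices leaves at most `|S|`
connected components. -/
def AlphaOneTough {V : Type u} (G : SimpleGraph V) : Prop :=
  ∀ S : Set V, S.Nonempty → G.IsIndepSet S →
    ENat.card (G.induce Sᶜ).ConnectedComponent ≤ S.encard

/-- `P` is the chromatic polynomial of `G`: for each positive integer `n` its value at `n` is the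
number of proper vertex colourings of `G` with `n` available colours. -/
def IsChromatic {V : Type u} (G : SimpleGraph V) (P : ℝ[X]) : Prop :=
  ∀ n : ℕ, 0 < n → P.eval (n : ℝ) = (Nat.card (G.Coloring (Fin n)) : ℝ)

/-! ### The chromatic polynomial of the library is the chromatic polynomial -/

section bridge
open Classical
variable {V : Type} [Fintype V]

/-- Proper colourings as functions. -/
def colFun {W : Type u} (G : SimpleGraph W) (k : ℕ) :
    {f : W → Fin k // ∀ u v, G.Adj u v → f u ≠ f v} ≃ G.Coloring (Fin k) where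
  toFun f := SimpleGraph.Coloring.mk f.1 (fun {u v} h => f.2 u v h)
  invFun C := ⟨C, fun _ _ h => C.valid h⟩
  left_inv _ := rfl
  right_inv _ := rfl

lemma chrom_nat (G : SimpleGraph V) (k : ℕ) :
    chrom (Finset.univ : Finset V) (iB G) (k : ℝ) = (Nat.card (G.Coloring (Fin k)) : ℝ) := by
  rw [← Nat.card_congr (colFun G k), chrom_natCast, ← Nat.card_eq_fintype_card]
  congr 1
  refine Nat.card_congr (Equiv.subtypeEquiv
    (Equiv.arrowCongr (Equiv.subtypeUnivEquiv (fun v => Finset.mem_univ v)) (Equiv.refl _)) ?_)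
  intro f
  constructor
  · intro h u v huv heq
    have heq' : f ⟨u, Finset.mem_univ u⟩ = f ⟨v, Finset.mem_univ v⟩ := heq
    refine h (f ⟨u, Finset.mem_univ u⟩) ⟨⟨u, Finset.mem_univ u⟩, by simp⟩
      ⟨u, ?_, v, ?_, huv⟩
    · simp
    · simp [heq']
  · rintro h j _ ⟨u, hu, v, hv, huv⟩
    rw [Finset.mem_map] at hu hv
    obtain ⟨⟨u', hu'⟩, hu1, hu2⟩ := hu
    obtain ⟨⟨v', hv'⟩, hv1, hv2⟩ := hv
    simp only [Finset.mem_filter, Finset.mem_univ, true_and] at hu1 hv1
    simp only [Function.Embedding.coe_subtype] at hu2 hv2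
    subst hu2 hv2
    exact h u' v' huv (hu1.trans hv1.symm)

lemma eq_of_isChromatic {W : Type u} {G : SimpleGraph W} {P Q : ℝ[X]} (hP : IsChromatic G P)
    (hQ : IsChromatic G Q) : P = Q := by
  refine Polynomial.eq_of_infinite_eval_eq P Q ?_
  refine Set.Infinite.mono ?_ (Set.infinite_range_of_injective
    (f := fun n : ℕ => ((n + 1 : ℕ) : ℝ)) (fun a b h => by simpa using h))
  rintro _ ⟨k, rfl⟩
  rw [Set.mem_ofPred_eq, hP (k + 1) (Nat.succ_pos k), hQ (k + 1) (Nat.succ_pos k)]

lemma exists_chrom (G : SimpleGraph V) :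
    ∃ P : ℝ[X], IsChromatic G P ∧ ∀ q : ℝ, P.eval q = chrom (Finset.univ : Finset V) (iB G) q := by
  obtain ⟨p, hp⟩ := chrom_poly (Finset.univ : Finset V) (iB G)
  exact ⟨p, fun n _ => by rw [← hp, chrom_nat], fun q => (hp q).symm⟩

/-- The component counts of the two formalisms agree. -/
lemma natCard_eq_c (V : Type) [Fintype V] (G : SimpleGraph V)
    (S : Finset V) :
    Nat.card ((G.induce ((S : Set V)ᶜ)).ConnectedComponent) =
      c (Finset.univ : Finset V) (fun S => ∃ u ∈ S, ∃ v ∈ S, G.Adj u v) S := by
  set H := G.induce ((S : Set V)ᶜ) with hH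
  set B : Finset V → Prop := fun S => ∃ u ∈ S, ∃ v ∈ S, G.Adj u v with hBdef
  set R : Finset V := Finset.univ \ S with hR
  have hRmem : ∀ x : V, x ∈ R ↔ x ∈ ((S : Set V)ᶜ) := by
    intro x
    simp [hR]
  have hadj : ∀ a b : V, Adj B a b ↔ G.Adj a b := by
    intro a b
    constructor
    · rintro ⟨hne, u, hu, v, hv, huv⟩
      simp only [Finset.mem_insert, Finset.mem_singleton] at hu hv
      rcases hu with rfl | rfl <;> rcases hv with rfl | rfl
      · exact absurd rfl huv.ne
      · exact huv
      · exact huv.symm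
      · exact absurd rfl huv.ne
    · intro h
      exact ⟨h.ne, a, by simp, b, by simp, h⟩
  -- joined iff reachable
  have hjr : ∀ (a b : V) (ha : a ∈ ((S : Set V)ᶜ)) (hb : b ∈ ((S : Set V)ᶜ)),
      Joined B R a b ↔ H.Reachable ⟨a, ha⟩ ⟨b, hb⟩ := by
    intro a b ha hb
    constructor
    · intro h
      have : ∀ y : V, Joined B R a y → ∀ hy : y ∈ ((S : Set V)ᶜ), H.Reachable ⟨a, ha⟩ ⟨y, hy⟩ := by
        intro y hy
        induction hy with
        | refl => intro _; exact SimpleGraph.Reachable.refl _
        | tail _ hst ih =>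
          intro hy'
          obtain ⟨h1, h2, h3⟩ := hst
          have h1' := (hRmem _).1 h1
          refine (ih h1').trans (SimpleGraph.Adj.reachable ?_)
          exact (hadj _ _).1 h3
      exact this b h hb
    · rintro ⟨p⟩
      have : ∀ (x y : ((S : Set V)ᶜ : Set V)) (_ : H.Walk x y), Joined B R (x : V) (y : V) := by
        intro x y p
        induction p with
        | nil => exact Relation.ReflTransGen.refl
        | cons hxy _ ih =>
          refine Relation.ReflTransGen.head ?_ ih
          refine ⟨(hRmem _).2 (Subtype.property _), (hRmem _).2 (Subtype.property _), (hadj _ _).2 hxy⟩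
      exact this _ _ p
  -- the map
  let f : H.ConnectedComponent → Finset V := fun C =>
    R.filter (fun u => ∃ h : u ∈ ((S : Set V)ᶜ), H.connectedComponentMk ⟨u, h⟩ = C)
  have hf : ∀ x : ((S : Set V)ᶜ : Set V), f (H.connectedComponentMk x) =
      R.filter (fun u => Joined B R (x : V) u) := by
    intro x
    ext u
    simp only [f, Finset.mem_filter]
    constructor
    · rintro ⟨hu, h, he⟩
      refine ⟨hu, (hjr _ _ x.2 h).2 ?_⟩
      exact (SimpleGraph.ConnectedComponent.eq.1 he).symm
    · rintro ⟨hu, h⟩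
      have hu' := (hRmem u).1 hu
      refine ⟨hu, hu', ?_⟩
      exact SimpleGraph.ConnectedComponent.eq.2 ((hjr _ _ x.2 hu').1 h).symm
  have hinj : Function.Injective f := by
    intro C C' hCC
    induction C using SimpleGraph.ConnectedComponent.ind with
    | h x =>
    have hx : (x : V) ∈ f (H.connectedComponentMk x) := by
      simp only [f]
      exact Finset.mem_filter.2 ⟨(hRmem _).2 x.2, x.2, rfl⟩
    rw [hCC] at hx
    simp only [f, Finset.mem_filter] at hx
    obtain ⟨_, _, h⟩ := hx
    exact h
  have : Finite H.ConnectedComponent := Finite.of_injective f hinj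
  have : Fintype H.ConnectedComponent := Fintype.ofFinite _
  have himg : comps B R = Finset.univ.image f := by
    ext T
    simp only [comps, Finset.mem_image, Finset.mem_univ, true_and]
    constructor
    · rintro ⟨v, hv, rfl⟩
      exact ⟨H.connectedComponentMk ⟨v, (hRmem v).1 hv⟩, hf ⟨v, (hRmem v).1 hv⟩⟩
    · rintro ⟨C, rfl⟩
      induction C using SimpleGraph.ConnectedComponent.ind with
      | h x => exact ⟨(x : V), (hRmem _).2 x.2, (hf x).symm⟩
  have hc : c (Finset.univ : Finset V) B S = (comps B R).card := rfl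
  rw [hc, himg, Finset.card_image_of_injective _ hinj, Finset.card_univ, Nat.card_eq_fintype_card]

end bridge

/-! ### The theorem for types in the lowest universe -/

section core
open Classical
variable {V : Type} [Fintype V]

lemma AlphaOneTough.finset {G : SimpleGraph V} (hG : AlphaOneTough G) (S : Finset V)
    (hS : S.Nonempty) (hI : G.IsIndepSet (S : Set V)) :
    Nat.card ((G.induce ((S : Set V)ᶜ)).ConnectedComponent) ≤ S.card := by
  have h := hG (S : Set V) hS hI
  have : Finite (G.induce ((S : Set V)ᶜ)).ConnectedComponent := Quot.finite _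
  rw [ENat.card_eq_coe_natCard, Set.encard_coe_eq_coe_finsetCard] at h
  exact_mod_cast h

lemma core {G : SimpleGraph V} (hG : AlphaOneTough G) {P : ℝ[X]} (hP : IsChromatic G P) {q : ℝ}
    (hq1 : 1 < q) (hq2 : q < 2) :
    P.eval q ≠ 0 ∧ ((∃ u v, G.Adj u v) → 0 < (-1 : ℝ) ^ Nat.card V * P.eval q) := by
  obtain ⟨p, hp, hpe⟩ := exists_chrom G
  rw [eq_of_isChromatic hP hp, hpe]
  have hsign : (∃ u v, G.Adj u v) →
      0 < (-1 : ℝ) ^ Nat.card V * chrom (Finset.univ : Finset V) (iB G) q := by
    intro he
    have h := (init_ClQ (G := G) (fun S hne hS => by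
      have hind : G.IsIndepSet (S : Set V) := fun a ha b hb _ hab => hS a ha b hb hab
      have h := hG.finset S hne hind
      rw [natCard_eq_c V G S] at h
      exact h) he).phi_pos hq1 hq2
    unfold Phi at h
    have hq : 0 < q * (q - 1) := mul_pos (by linarith) (by linarith)
    rw [Finset.card_univ, ← Nat.card_eq_fintype_card] at h
    have := mul_pos h hq
    rwa [div_mul_cancel₀ _ hq.ne'] at this
  refine ⟨?_, hsign⟩
  by_cases he : ∃ u v, G.Adj u v
  · intro h0
    have := hsign he
    rw [h0, mul_zero] at this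
    exact lt_irrefl _ this
  · have hempty : G.edgeFinset = ∅ := by
      rw [Finset.eq_empty_iff_forall_notMem]
      intro e
      refine Sym2.ind (fun u v hmem => ?_) e
      rw [SimpleGraph.mem_edgeFinset, SimpleGraph.mem_edgeSet] at hmem
      exact he ⟨u, v, hmem⟩
    have h : chrom (Finset.univ : Finset V) (iB G) q = _ := (edge_sum_eq_chrom V G q).symm
    rw [h, hempty, Finset.powerset_empty, Finset.sum_singleton, Finset.card_empty, pow_zero,
      one_mul]
    exact (pow_pos (by linarith) _).ne'

end core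

/-! ### Transport to arbitrary universes -/

section transport
variable {V : Type u} {W : Type} {G : SimpleGraph V} {K : SimpleGraph W}

/-- Colourings are transported along an isomorphism. -/
def colIso (e : G ≃g K) (k : ℕ) : G.Coloring (Fin k) ≃ K.Coloring (Fin k) where
  toFun C := C.comp e.symm.toHom
  invFun C := C.comp e.toHom
  left_inv C := by
    ext v
    simp
  right_inv C := by
    ext v
    simp

lemma IsChromatic.iso (e : G ≃g K) {P : ℝ[X]} (h : IsChromatic K P) : IsChromatic G P := by
  intro n hn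
  rw [h n hn, Nat.card_congr (colIso e n)]

/-- The isomorphism of the graphs induced on complements. -/
def indIso (e : G ≃g K) (S : Set W) : G.induce (e ⁻¹' S)ᶜ ≃g K.induce Sᶜ where
  toFun x := ⟨e x.1, x.2⟩
  invFun y := ⟨e.symm y.1, by
    show e (e.symm y.1) ∉ S
    rw [RelIso.apply_symm_apply]
    exact y.2⟩
  left_inv x := by ext; simp
  right_inv y := by ext; simp
  map_rel_iff' := by
    intro a b
    exact e.map_rel_iff

lemma AlphaOneTough.iso (e : G ≃g K) (h : AlphaOneTough G) : AlphaOneTough K := by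
  intro S hS hI
  have h1 := h (e ⁻¹' S) (hS.preimage e.surjective) (fun a ha b hb hab hadj => by
    exact hI ha hb (fun h => hab (e.injective h)) (e.map_rel_iff.mpr hadj))
  rw [ENat.card_congr (indIso e S).connectedComponentEquiv] at h1
  refine h1.trans (le_of_eq ?_)
  exact Set.encard_preimage_of_bijective e.bijective S

end transport

/-- **The Dong–Koh conjecture, with the sign.** Let `G` be a finite alpha-1-tough graph. Then there
is exactly one polynomial `P` whose values at the positive integers are the numbers of proper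
colourings of `G`, it has no zero in the interval `(1,2)`, and if `G` has an edge then
`(-1)^{|V(G)|} P(q) > 0` for all `q` in `(1,2)`. -/
theorem result {V : Type u} [Finite V] (G : SimpleGraph V) (hG : AlphaOneTough G) :
    (∃! P : ℝ[X], IsChromatic G P) ∧
    ∀ P : ℝ[X], IsChromatic G P → ∀ q : ℝ, 1 < q → q < 2 →
      P.eval q ≠ 0 ∧ ((∃ u v, G.Adj u v) → 0 < (-1 : ℝ) ^ Nat.card V * P.eval q) := by
  obtain ⟨n, ⟨f⟩⟩ := Finite.exists_equiv_fin V
  let K : SimpleGraph (Fin n) := G.comap f.symm
  let e : G ≃g K := (SimpleGraph.Iso.comap f.symm G).symm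
  obtain ⟨P, hP, -⟩ := exists_chrom K
  refine ⟨⟨P, hP.iso e, fun Q hQ => eq_of_isChromatic hQ (hP.iso e)⟩, ?_⟩
  intro Q hQ q hq1 hq2
  have hQ' : IsChromatic K Q := by
    rw [eq_of_isChromatic hQ (hP.iso e)]; exact hP
  obtain ⟨h1, h2⟩ := core (hG.iso e) hQ' hq1 hq2
  refine ⟨h1, ?_⟩
  rintro ⟨u, v, huv⟩
  have h3 := h2 ⟨e u, e v, e.map_rel_iff.mpr huv⟩
  rwa [← Nat.card_congr f] at h3

end Pool.Agent.Results.MP_6f255c_co.SignOnInterval
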